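import Mathlib

open Matrix

namespace Pool.Agent.Results.MP_7523ff_co.NotColorable

/-- The spectral radius: the largest eigenvalue of the adjacency matrix. -/
noncomputable def specRad {V : Type} [Fintype V] (G : SimpleGraph V) : ℝ :=
  open Classical in sSup {t : ℝ | ∃ x : V → ℝ, x ≠ 0 ∧ (G.adjMatrix ℝ) *ᵥ x = t • x}

/-- The number of edges. -/
noncomputable def numEdges {V : Type} [Fintype V] (G : SimpleGraph V) : ℕ :=
  open Classical in G.edgeFinset.card

/-- `G` is a minimizer: it is connected and has the least spectral radius among all connected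
graphs with the same vertex set and the same number of edges. -/
def IsMinimizer {V : Type} [Fintype V] (G : SimpleGraph V) : Prop :=
  G.Connected ∧ ∀ H : SimpleGraph V, H.Connected → numEdges H = numEdges G →
    specRad G ≤ specRad H

/-- The number of edges of the Turán graph `T_{n,k}`. -/
noncomputable def turanEdges (n k : ℕ) : ℕ := numEdges (SimpleGraph.turanGraph n k)

open Classical in
lemma eig_le {V : Type} [Fintype V] (G : SimpleGraph V) (d : ℕ) (hd : ∀ v, G.degree v ≤ d)
    (t : ℝ) (x : V → ℝ) (hx : x ≠ 0) (h : (G.adjMatrix ℝ) *ᵥ x = t • x) : t ≤ d := by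
  obtain ⟨v0, hv0⟩ : ∃ v, x v ≠ 0 := by
    by_contra hn
    push Not at hn
    exact hx (funext hn)
  obtain ⟨v, -, hv⟩ := Finset.exists_max_image Finset.univ (fun v => |x v|) ⟨v0, Finset.mem_univ _⟩
  have hpos : 0 < |x v| := lt_of_lt_of_le (abs_pos.2 hv0) (hv v0 (Finset.mem_univ _))
  have h1 := congrFun h v
  rw [SimpleGraph.adjMatrix_mulVec_apply] at h1
  simp only [Pi.smul_apply, smul_eq_mul] at h1
  have h2 : |t * x v| ≤ d * |x v| := by
    rw [← h1]
    refine le_trans (Finset.abs_sum_le_sum_abs _ _) ?_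
    refine le_trans (Finset.sum_le_sum fun u _ => hv u (Finset.mem_univ _)) ?_
    rw [Finset.sum_const, SimpleGraph.card_neighborFinset_eq_degree, nsmul_eq_mul]
    have : (G.degree v : ℝ) ≤ d := by exact_mod_cast hd v
    exact mul_le_mul_of_nonneg_right this hpos.le
  rw [abs_mul] at h2
  exact le_trans (le_abs_self t) (le_of_mul_le_mul_right h2 hpos)

open Classical in
lemma specRad_le {V : Type} [Fintype V] [Nonempty V] (G : SimpleGraph V) (d : ℕ)
    (hd : ∀ v, G.degree v = d) : specRad G ≤ d := by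
  refine csSup_le ?_ ?_
  · refine ⟨d, fun _ => 1, ?_, ?_⟩
    · intro h
      obtain ⟨v⟩ := (inferInstance : Nonempty V)
      have := congrFun h v
      simp at this
    · funext v
      rw [SimpleGraph.adjMatrix_mulVec_apply]
      simp [hd]
  · rintro t ⟨x, hx, h⟩
    exact eig_le G d (fun v => (hd v).le) t x hx h

open Classical in
/-- `λ(H) ≥ 2m/n` -/
lemma le_specRad {V : Type} [Fintype V] [Nonempty V] (H : SimpleGraph V) :
    (2 * numEdges H : ℝ) / Fintype.card V ≤ specRad H := by
  let A := H.adjMatrix ℝ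
  let T : EuclideanSpace ℝ V →ₗ[ℝ] EuclideanSpace ℝ V := Matrix.toEuclideanLin A
  have hT : T.IsSymmetric := by
    rw [Matrix.isSymmetric_toEuclideanLin_iff]
    show Aᴴ = A
    rw [Matrix.conjTranspose_eq_transpose_of_trivial]
    exact H.isSymm_adjMatrix
  obtain ⟨v0⟩ := (inferInstance : Nonempty V)
  let X : EuclideanSpace ℝ V := WithLp.toLp 2 (fun _ => 1)
  have hX0 : X ≠ 0 := by
    intro h
    have := congrFun (congrArg WithLp.ofLp h) v0
    simp [X] at this
  have : Nontrivial (EuclideanSpace ℝ V) := ⟨⟨X, 0, hX0⟩⟩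
  have hev := hT.hasEigenvalue_iSup_of_finiteDimensional
  set t : ℝ := (⨆ x : { x : EuclideanSpace ℝ V // x ≠ 0 }, RCLike.re (inner ℝ (T x) (x : _)) /
    ‖(x : EuclideanSpace ℝ V)‖ ^ 2 : ℝ) with ht
  have hb : BddAbove (Set.range fun x : { x : EuclideanSpace ℝ V // x ≠ 0 } =>
      (RCLike.re (inner ℝ (T x) (x : EuclideanSpace ℝ V)) /
        ‖(x : EuclideanSpace ℝ V)‖ ^ 2 : ℝ)) := by
    refine ⟨‖LinearMap.toContinuousLinearMap T‖, ?_⟩
    rintro _ ⟨y, rfl⟩
    simp only [RCLike.re_to_real]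
    have hy : 0 < ‖(y : EuclideanSpace ℝ V)‖ := norm_pos_iff.2 y.2
    rw [div_le_iff₀ (by positivity)]
    refine le_trans (real_inner_le_norm _ _) ?_
    have := (LinearMap.toContinuousLinearMap T).le_opNorm y
    calc ‖T y‖ * ‖(y : EuclideanSpace ℝ V)‖ ≤
        (‖LinearMap.toContinuousLinearMap T‖ * ‖(y : EuclideanSpace ℝ V)‖) *
          ‖(y : EuclideanSpace ℝ V)‖ := by
          exact mul_le_mul_of_nonneg_right this hy.le
      _ = _ := by ring
  have h1 : (2 * numEdges H : ℝ) / Fintype.card V ≤ t := by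
    refine le_trans ?_ (le_ciSup hb ⟨X, hX0⟩)
    simp only [RCLike.re_to_real]
    have hn : ‖X‖ ^ 2 = Fintype.card V := by
      rw [EuclideanSpace.norm_sq_eq]
      simp [X]
    have hi : inner ℝ (T X) X = 2 * numEdges H := by
      have e : inner ℝ (T X) X = ∑ i, (A *ᵥ (fun _ => 1)) i := by
        show ∑ i, inner ℝ ((A *ᵥ (fun _ => (1 : ℝ))) i) ((fun _ => (1 : ℝ)) i) = _
        simp
      rw [e]
      have : ∀ i, (A *ᵥ (fun _ => 1)) i = (H.degree i : ℝ) := by
        intro i
        rw [SimpleGraph.adjMatrix_mulVec_apply]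
        simp
      simp only [this]
      rw [← Nat.cast_sum, SimpleGraph.sum_degrees_eq_twice_card_edges, numEdges]
      push_cast
      rfl
    rw [hn, hi]
  refine le_trans h1 (le_csSup ?_ ?_)
  · refine ⟨Fintype.card V, ?_⟩
    rintro s ⟨x, hx, h⟩
    exact eig_le H (Fintype.card V) (fun v => by
      rw [← SimpleGraph.card_neighborFinset_eq_degree]; exact Finset.card_le_univ _) s x hx h
  · obtain ⟨y, hy⟩ := hev.exists_hasEigenvector
    refine ⟨y.ofLp, ?_, ?_⟩
    · intro h
      apply hy.2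
      apply WithLp.ofLp_injective
      exact h
    · have h2 := hy.apply_eq_smul
      exact congrArg WithLp.ofLp h2

open Classical in
lemma minimizer_of_regular {V : Type} [Fintype V] [Nonempty V] (G : SimpleGraph V) (d : ℕ)
    (hd : ∀ v, G.degree v = d) (hG : G.Connected) : IsMinimizer G := by
  refine ⟨hG, fun H _ hm => ?_⟩
  refine le_trans (specRad_le G d hd) (le_trans ?_ (le_specRad H))
  rw [hm]
  have h1 : (2 * numEdges G : ℕ) = Fintype.card V * d := by
    have := G.sum_degrees_eq_twice_card_edges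
    simp only [hd, Finset.sum_const, Finset.card_univ, smul_eq_mul] at this
    exact this.symm
  have h2 : (2 * numEdges G : ℝ) = Fintype.card V * d := by exact_mod_cast h1
  have h3 : (0 : ℝ) < Fintype.card V := by exact_mod_cast Fintype.card_pos
  rw [h2, mul_div_cancel_left₀ _ h3.ne']

/-- two complete graphs on `t` vertices joined by a perfect matching -/
def GG (t : ℕ) : SimpleGraph (Fin t × Fin 2) := (⊤ : SimpleGraph (Fin t)) □ (⊤ : SimpleGraph (Fin 2))

lemma degree_inst {V : Type} (G : SimpleGraph V) (v : V) (i₁ i₂ : Fintype (G.neighborSet v)) :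
    @SimpleGraph.degree V G v i₁ = @SimpleGraph.degree V G v i₂ := by
  rw [Subsingleton.elim i₁ i₂]

lemma GG_deg (t : ℕ) (ht : 1 ≤ t) (v : Fin t × Fin 2) (inst : Fintype ((GG t).neighborSet v)) :
    @SimpleGraph.degree _ (GG t) v inst = t := by
  classical
  have h1 : (⊤ : SimpleGraph (Fin t)).degree v.1 = t - 1 := by
    rw [SimpleGraph.complete_graph_degree, Fintype.card_fin]
  have h2 : (⊤ : SimpleGraph (Fin 2)).degree v.2 = 1 := by
    rw [SimpleGraph.complete_graph_degree, Fintype.card_fin]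
  have h3 := SimpleGraph.degree_boxProd (G := (⊤ : SimpleGraph (Fin t)))
    (H := (⊤ : SimpleGraph (Fin 2))) v
  rw [h1, h2] at h3
  have h5 : @SimpleGraph.degree _ (GG t) v inst = t - 1 + 1 :=
    (degree_inst ((⊤ : SimpleGraph (Fin t)) □ (⊤ : SimpleGraph (Fin 2))) v inst _).trans h3
  omega

open Classical in
lemma GG_edges (t : ℕ) (ht : 1 ≤ t) : numEdges (GG t) = t ^ 2 := by
  have h := (GG t).sum_degrees_eq_twice_card_edges
  simp only [GG_deg t ht, Finset.sum_const, Finset.card_univ, smul_eq_mul, Fintype.card_prod,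
    Fintype.card_fin] at h
  unfold numEdges
  nlinarith

lemma GG_conn (t : ℕ) (ht : 1 ≤ t) : (GG t).Connected := by
  have : Nonempty (Fin t) := ⟨⟨0, by omega⟩⟩
  exact SimpleGraph.Connected.boxProd SimpleGraph.connected_top SimpleGraph.connected_top

lemma GG_not (t : ℕ) (ht : 3 ≤ t) : ¬ (GG t).Colorable 2 := by
  rintro ⟨c⟩
  let a : Fin t × Fin 2 := (⟨0, by omega⟩, 0)
  let b : Fin t × Fin 2 := (⟨1, by omega⟩, 0)
  let d : Fin t × Fin 2 := (⟨2, by omega⟩, 0)
  have hadj : ∀ i j : Fin t, i ≠ j → (GG t).Adj (i, 0) (j, 0) := by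
    intro i j hij
    unfold GG
    rw [SimpleGraph.boxProd_adj]
    exact Or.inl ⟨hij, rfl⟩
  have h1 : c a ≠ c b := c.valid (hadj _ _ (by intro h; exact absurd (Fin.mk.inj h) (by norm_num)))
  have h2 : c b ≠ c d := c.valid (hadj _ _ (by intro h; exact absurd (Fin.mk.inj h) (by norm_num)))
  have h3 : c a ≠ c d := c.valid (hadj _ _ (by intro h; exact absurd (Fin.mk.inj h) (by norm_num)))
  omega

lemma numEdges_eq {V : Type} [Fintype V] (G : SimpleGraph V) [Fintype G.edgeSet] :
    numEdges G = G.edgeFinset.card := by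
  unfold numEdges
  apply congrArg
  ext e
  simp only [SimpleGraph.mem_edgeFinset]

lemma turan_two (t : ℕ) : turanEdges (2 * t) 2 = t ^ 2 := by
  classical
  have h : turanEdges (2 * t) 2 = (SimpleGraph.turanGraph (2 * t) 2).edgeFinset.card :=
    numEdges_eq _
  rw [h, SimpleGraph.card_edgeFinset_turanGraph]
  have : 2 * t % 2 = 0 := by omega
  rw [this]
  have : (2 * t) ^ 2 = 4 * t ^ 2 := by ring
  rw [this]
  simp

lemma turan_one (n : ℕ) : turanEdges n 1 = 0 := by
  classical
  have h : turanEdges n 1 = (SimpleGraph.turanGraph n 1).edgeFinset.card := numEdges_eq _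
  rw [h, SimpleGraph.card_edgeFinset_turanGraph]
  simp [Nat.mod_one]

theorem result : ∀ (α c : ℝ) (n₀ : ℕ), 0 < α → α < 2 → 0 < c →
    ∃ (V : Type) (_ : Fintype V) (G : SimpleGraph V) (r : ℕ),
      n₀ ≤ Fintype.card V ∧ c * (Fintype.card V : ℝ) ^ α ≤ numEdges G ∧ IsMinimizer G ∧
      1 ≤ r ∧ turanEdges (Fintype.card V) (r - 1) < numEdges G ∧
      numEdges G ≤ turanEdges (Fintype.card V) r ∧ ¬ G.Colorable r := by
  intro α c n₀ _ hα2 hc
  have hlim := tendsto_rpow_atTop (y := 2 - α) (by linarith)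
  obtain ⟨M, hM⟩ := Filter.eventually_atTop.1 (hlim.eventually_ge_atTop (4 * c))
  obtain ⟨t, ht⟩ := exists_nat_ge (max M (n₀ + 3))
  have htM : M ≤ t := le_trans (le_max_left _ _) ht
  have htn : n₀ + 3 ≤ t := by
    have : ((n₀ + 3 : ℕ) : ℝ) ≤ t := by
      push_cast
      exact le_trans (le_max_right _ _) ht
    exact_mod_cast this
  have hcard : Fintype.card (Fin t × Fin 2) = 2 * t := by
    rw [Fintype.card_prod, Fintype.card_fin, Fintype.card_fin, mul_comm]
  have : Nonempty (Fin t × Fin 2) := ⟨(⟨0, by omega⟩, 0)⟩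
  refine ⟨Fin t × Fin 2, inferInstance, GG t, 2, ?_, ?_, ?_, by norm_num, ?_, ?_, ?_⟩
  · rw [hcard]; omega
  · rw [hcard, GG_edges t (by omega)]
    have ht0 : (0 : ℝ) < t := by
      have : 0 < t := by omega
      exact_mod_cast this
    have h1 := hM (2 * t) (by linarith)
    have h2 : (2 * t : ℝ) ^ (2 - α) * (2 * t : ℝ) ^ α = (2 * t) ^ 2 := by
      rw [← Real.rpow_add (by linarith)]
      norm_num
    have h3 : 0 < (2 * t : ℝ) ^ α := by positivity
    push_cast
    nlinarith [mul_le_mul_of_nonneg_right h1 h3.le]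
  · classical
    exact minimizer_of_regular _ t (fun v => GG_deg t (by omega) v _) (GG_conn t (by omega))
  · rw [hcard, turan_one, GG_edges t (by omega)]
    have : 0 < t := by omega
    positivity
  · rw [hcard, turan_two, GG_edges t (by omega)]
  · exact GG_not t (by omega)

end Pool.Agent.Results.MP_7523ff_co.NotColorable
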